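import Pool.Agent.H.MP_fdcf9c_lc.D

set_option autoImplicit false
set_option linter.unusedSectionVars false

namespace Pool.Agent.H.MP_8df50c_lc

open Pool.Agent.Lib.helper21.PR Pool.Agent.H.MP_fdcf9c_lc Finset Polynomial Filter
  IntermediateField

variable {F K : Type} [Field F] [Field K] [Algebra F K] [Primcodable F] [Primcodable K] [CR K]

theorem tails (q : ℕ) [ExpChar K q] (T : Subfield K) (hT : REPred (· ∈ T))
    (h : ∀ n, ∃ u, u ^ q ^ n ∉ T) :
    ∃ a : ℕ → K, Computable a ∧ ∀ D, ∀ᶠ i in atTop, a i ^ q ^ D ∉ T := by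
  classical
  have q0 : ∀ a, q ^ a ≠ 0 := fun a => (expChar_pow_pos K q a).ne'
  by_cases A : ∃ S n, S ^ q ^ n ∉ T ∧ ∀ a : ℕ, ∃ x : K, (S + x ^ q ^ a) ^ q ^ n ∈ T
  · obtain ⟨S, n, h1, h2⟩ := A
    obtain ⟨x, x1, x2⟩ := rsel (rcomp hT (by fun_prop)) h2
    refine ⟨x, x1, fun D => (eventually_ge_atTop D).mono fun i l k => h1 ?_⟩
    have := T.sub_mem (x2 i) (T.pow_mem k (q ^ (i - D + n)))
    rwa [add_pow_expChar_pow, ← pow_mul, ← pow_mul, ← pow_add, ← pow_add, ← add_assoc,
      Nat.add_sub_cancel' l, add_sub_cancel_right] at this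
  push Not at A
  let c := fun n => (Encodable.decode (α := K × ℕ) n).getD (0, 0)
  let B := fun (j : ℕ) (s : K × ℕ) (n : ℕ) =>
    ∃ x : K, (s.1 + (c n).1 ^ q ^ s.2 + x ^ q ^ (s.2 + (c n).2)) ^ q ^ j ∈ T
  have G : ∀ j s, ∃ n, ¬B j s n := fun j s => by
    obtain ⟨x, hx⟩ : ∃ x : K, (s.1 + x ^ q ^ s.2) ^ q ^ j ∉ T := by
      by_contra! k
      obtain ⟨u, hu⟩ := h (s.2 + j)
      rw [pow_add, pow_mul] at hu
      simpa [add_pow_expChar_pow, zero_pow (q0 _), hu] using T.sub_mem (k u) (k 0)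
    obtain ⟨a, ha⟩ := A _ _ hx
    exact ⟨Encodable.encode (x, a), fun ⟨y, k⟩ => ha (y ^ q ^ s.2)
      (by simpa [c, ← pow_mul, ← pow_add] using k)⟩
  have hc : Computable c := c_prim (by fun_prop)
  obtain ⟨N, N1, N2, N3, N4⟩ := re_bool (p := fun p : (ℕ × K × ℕ) × ℕ => B p.1.1 p.1.2 p.2)
    (rex (rcomp hT (by fun_prop)))
  have E : ∀ p : ℕ × ℕ × K × ℕ, ∃ n, N (p.2, n) p.1 = false := fun p =>
    (G p.2.1 p.2.2).imp fun n k => Bool.eq_false_iff.2 fun e => k (N2 _ _ e)
  obtain ⟨f, hf, f1⟩ : ∃ f : ℕ × ℕ × K × ℕ → ℕ, Computable f ∧ ∀ p n, N (p.2, n) p.1 = false →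
      (∀ m < n, ¬N (p.2, m) p.1 = false) → f p = n :=
    ⟨_, Computable.find (P := fun (p : ℕ × ℕ × K × ℕ) n => N (p.2, n) p.1 = false)
      (pred (p := fun p : (ℕ × ℕ × K × ℕ) × ℕ => N (p.1.2, p.2) p.1.1 = false) (p_eq (N1.comp
        (g := fun p : (ℕ × ℕ × K × ℕ) × ℕ => ((p.1.2, p.2), p.1.1)) (by fun_prop))
          (.const _))).computablePred E, fun p n a b => (Nat.find_eq_iff _).2 ⟨a, b⟩⟩
  clear_value c
  let st := fun t j : ℕ => Nat.rec (motive := fun _ => K × ℕ) (0, 0) (fun j s =>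
    (s.1 + (c (f (t, j, s))).1 ^ q ^ s.2, s.2 + (c (f (t, j, s))).2)) j
  have lim : ∀ j, ∃ s, (∀ᶠ t in atTop, st t j = s) ∧
      ∀ i, j = i + 1 → ∀ x : K, (s.1 + x ^ q ^ s.2) ^ q ^ i ∉ T := fun j => by
    induction j with
    | zero => exact ⟨(0, 0), .of_forall fun _ => rfl, by simp⟩
    | succ j ih =>
      obtain ⟨s, hs, -⟩ := ih
      refine ⟨(s.1 + (c (Nat.find (G j s))).1 ^ q ^ s.2, s.2 + (c (Nat.find (G j s))).2), ?_,
        fun i e x k => Nat.find_spec (G j s) ⟨x, Nat.succ.inj e ▸ k⟩⟩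
      have : ∀ᶠ t in atTop, ∀ n ∈ range (Nat.find (G j s)), N ((j, s), n) t = true :=
        (eventually_all_finset _).2 fun n l => by
          obtain ⟨t, k⟩ := N4 ((j, s), n) (not_not.1 (Nat.find_min (G j s) (mem_range.1 l)))
          exact (eventually_ge_atTop t).mono fun _ l => N3 _ _ _ l k
      filter_upwards [hs, this] with t e k
      have : f (t, j, s) = Nat.find (G j s) := f1 _ _
        (Bool.eq_false_iff.2 fun e => Nat.find_spec (G j s) (N2 _ _ e))
          fun n l => by simp [k n (mem_range.2 l)]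
      rw [← this, ← e]
  have tl : ∀ t j m, j ≤ m → (st t j).2 ≤ (st t m).2 ∧
      ∃ x : K, (st t m).1 = (st t j).1 + x ^ q ^ (st t j).2 := fun t j m l => by
    induction m, l using Nat.le_induction with
    | base => exact ⟨le_rfl, 0, by rw [zero_pow (q0 _), add_zero]⟩
    | succ m l ih =>
      obtain ⟨a, x, e⟩ := ih
      refine ⟨a.trans (Nat.le_add_right _ _), x + (c (f (t, m, st t m))).1 ^ q ^
        ((st t m).2 - (st t j).2), ?_⟩
      rw [add_pow_expChar_pow, ← add_assoc, ← e, ← pow_mul, ← pow_add, Nat.sub_add_cancel a]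
  refine ⟨fun t => (st t t).1, Computable.fst.comp (Computable.nat_rec (h := fun t p =>
    (p.2.1 + (c (f (t, p))).1 ^ q ^ p.2.2, p.2.2 + (c (f (t, p))).2)) .id
      (.const _) ?_), fun D => ?_⟩
  · have := hc.comp hf
    unfold Computable₂
    exact (c_add (by fun_prop) (c_pow (c_fst this) (by fun_prop))).pair
      (c_add (by fun_prop) (c_snd this))
  obtain ⟨s, hs, k⟩ := lim (D + 1)
  filter_upwards [hs, eventually_ge_atTop (D + 1)] with t e l
  obtain ⟨-, x, e'⟩ := tl t _ _ l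
  rw [e', e]
  exact k D rfl x

theorem key (hΨ : Computable (algebraMap F K))
    (U : ∀ n : ℕ, ∃ v : K, (n : Cardinal) < Module.rank F F⟮v⟯) :
    ∃ a : ℕ → K, Computable a ∧ ∀ D : ℕ, ∀ᶠ i in atTop,
      ∀ p : F[X], p.degree < D → aeval (a i) p = 0 → p = 0 := by
  by_cases t : Algebra.IsAlgebraic F K
  swap
  · obtain ⟨t, ht⟩ := (Algebra.transcendental_iff_not_isAlgebraic.2 t).transcendental
    exact ⟨fun _ => t, .const t, fun D => .of_forall fun i p _ => transcendental_iff.1 ht p⟩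
  have I : ∀ x : K, IsIntegral F x := Algebra.IsIntegral.isIntegral
  replace U : ∀ n, ∃ v : K, n < (minpoly F v).natDegree := fun n => (U n).imp fun v h => by
    have := adjoin.finiteDimensional (I v)
    rwa [← Module.finrank_eq_rank, adjoin.finrank (I v), Nat.cast_lt] at h
  suffices ∃ a : ℕ → K, Computable a ∧ ∀ D, ∀ᶠ i in atTop, D ≤ (minpoly F (a i)).natDegree from
    this.imp fun a h => ⟨h.1, fun D => (h.2 D).mono fun i l p d e => by_contra fun p0 =>
      (minpoly.degree_le_of_ne_zero F _ p0 e).not_gt (d.trans_le ((WithBot.coe_le_coe.2 l).trans_eq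
        (degree_eq_natDegree (minpoly.ne_zero (I _))).symm))⟩
  obtain ⟨q, _⟩ := ExpChar.exists F
  have : ExpChar K q := expChar_of_injective_algebraMap (algebraMap F K).injective q
  by_cases h : ∀ n, ∃ u : K, ¬IsSeparable F (u ^ q ^ n)
  · have L : ∀ u : K, ∃ m, IsSeparable F (u ^ q ^ m) ∧ q ^ m ≤ (minpoly F u).natDegree := fun u => by
      obtain ⟨g, g1, m, g2⟩ := (minpoly.irreducible (I u)).hasSeparableContraction q
      refine ⟨m, g1.of_dvd (minpoly.dvd F _ (by rw [← expand_aeval, g2, minpoly.aeval])), ?_⟩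
      have := minpoly.natDegree_pos (I u)
      rw [← g2, natDegree_expand] at *
      exact Nat.le_mul_of_pos_left _ (Nat.pos_of_mul_pos_right this)
    have q1 : 1 < q := lt_of_le_of_ne (expChar_pos F q) fun e => by
      obtain ⟨u, k⟩ := h 0
      obtain ⟨m, k', -⟩ := L u
      exact k (by simpa [← e] using k')
    have R : REPred fun u : K => ∃ l : List F, (pm K l).eval u = 0 ∧ ∑ k ∈ range l.length,
        (∑ _j ∈ range k, algebraMap F K (l.getD k 0)) * u ^ (k - 1) ≠ 0 :=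
      rex (rand (req (peval (by fun_prop) (ppm hΨ (by fun_prop))) (.const 0)) (rne (c_sum (c_mul
        (c_sum (hΨ.comp (c_prim (by fun_prop))) (by fun_prop)) (c_pow (by fun_prop)
          (c_prim (by fun_prop)))) (by fun_prop)) (.const 0)))
    have d : ∀ (l : List F) (u : K), ∑ k ∈ range l.length, (∑ _j ∈ range k,
        algebraMap F K (l.getD k 0)) * u ^ (k - 1) = aeval u (derivative (pl l)) := fun l u => by
      simp [pl, derivative_X_pow, mul_assoc, mul_left_comm]
    obtain ⟨a, a1, a2⟩ := tails q (separableClosure F K).toSubfield (R.of_eq fun u =>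
      ⟨fun ⟨l, a, b⟩ => (separable_iff_derivative_ne_zero (minpoly.irreducible (I u))).2 fun e => by
        obtain ⟨g, k⟩ := minpoly.dvd F u (ev_pm l u ▸ a)
        exact b (by rw [d, k]; simp [e]), fun k => by
        obtain ⟨l, e⟩ := pl_surj (minpoly F u)
        exact ⟨l, by rw [ev_pm, e, minpoly.aeval], by
          rw [d, e]; exact Separable.aeval_derivative_ne_zero k (minpoly.aeval F u)⟩⟩) h
    refine ⟨a, a1, fun D => (a2 D).mono fun i k => by_contra fun l => k ?_⟩
    obtain ⟨m, k', b⟩ := L (a i)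
    have := Nat.lt_pow_self (n := m) q1
    rw [← Nat.add_sub_cancel' (show m ≤ D by omega), pow_add, pow_mul]
    exact Subfield.pow_mem _ (x := a i ^ q ^ m) k' _
  push Not at h
  obtain ⟨n, h⟩ := h
  have hu : Computable fun s => (Encodable.decode (α := K) s).getD 0 := c_prim (by fun_prop)
  replace hu := c_pow hu (.const (q ^ n))
  set u := fun s => (Encodable.decode (α := K) s).getD 0 ^ q ^ n
  obtain ⟨a, a1, a2⟩ := rsel (P := fun (i : ℕ) (θ : K) => ∀ s < i, ∃ p : List F,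
    u s = (pm K p).eval θ) (rball (rex (req (hu.comp (c_snd .fst)) (peval (by fun_prop)
      (ppm hΨ (by fun_prop))))) (by fun_prop)) fun i => by
    let L := adjoin F (u '' {s | s < i})
    have : Finite (u '' {s | s < i}) := ((Set.finite_lt_nat i).image u).to_subtype
    have : FiniteDimensional F L := finiteDimensional_adjoin fun x _ => I x
    have : Algebra.IsSeparable F L := (isSeparable_adjoin_iff_isSeparable F K).2 <| by
      rintro _ ⟨s, -, rfl⟩
      exact h _
    let pa := Field.powerBasisOfFiniteOfSeparable F L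
    refine ⟨pa.gen, fun s p => ?_⟩
    obtain ⟨p, e⟩ := pa.exists_eq_aeval' ⟨u s, subset_adjoin _ _ ⟨s, p, rfl⟩⟩
    obtain ⟨v, rfl⟩ := pl_surj p
    exact ⟨v, by rw [ev_pm]; exact (congrArg L.val e).trans (aeval_algHom_apply L.val _ _).symm⟩
  refine ⟨a, a1, fun D => ?_⟩
  obtain ⟨v, hv⟩ := U (D * q ^ n)
  refine (eventually_gt_atTop (Encodable.encode v)).mono fun i l => ?_
  obtain ⟨p, e⟩ := a2 i _ l
  have := adjoin.finiteDimensional (I (a i))
  have m : v ^ q ^ n ∈ F⟮a i⟯ := by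
    rw [show v ^ q ^ n = _ by simpa [u] using e, ev_pm]
    exact algebra_adjoin_le_adjoin F _ (aeval_mem_adjoin_singleton F _)
  have k := natDegree_le_natDegree (minpoly.degree_le_of_ne_zero F v
    ((expand_ne_zero (expChar_pow_pos F q n)).2 (minpoly.ne_zero (I (v ^ q ^ n))))
    (by rw [expand_aeval, minpoly.aeval]))
  rw [natDegree_expand, show v ^ q ^ n = algebraMap F⟮a i⟯ K ⟨_, m⟩ from rfl,
    minpoly.algebraMap_eq (algebraMap F⟮a i⟯ K).injective] at k
  rw [← adjoin.finrank (I _)]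
  exact (Nat.lt_of_mul_lt_mul_right (hv.trans_le k)).le.trans (minpoly.natDegree_le _)

end Pool.Agent.H.MP_8df50c_lc
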